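import Pool.Agent.FCH.StmtsP1

/-!
# FCH, row EXM: a valuation which is monomial in `w` is monomial in `z = w ^ e`
-/

set_option autoImplicit false

namespace Pool.Agent.FCH.H55

open Pool.Agent.LCI Pool.Agent.DFO Pool.Agent.QMA Pool.Agent.UCH Pool.Agent.FCH
open scoped BigOperators

/-- The value of a power. -/
theorem v_pow {k L : Type} [Field k] [Field L] [Algebra k L] (W : RVal k L) (x : L) (hx : x ≠ 0) :
    ∀ e : ℕ, W.v (x ^ e) = (e : ℝ) * W.v x := by
  intro e
  induction e with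
  | zero =>
    have h := W.const' 1 one_ne_zero
    simpa using h
  | succ e ih =>
    rw [pow_succ, W.mul' _ _ (pow_ne_zero _ hx) hx, ih]
    push_cast
    ring

/-- EXM. -/
theorem exm : ExmStmt := by
  intro k L _ _ _ n e w z W he hz hw
  obtain ⟨hw0, hw⟩ := hw
  have he0 : e ≠ 0 := by omega
  have hzv : ∀ l, W.v (z l) = (e : ℝ) * W.v (w l) := fun l => by
    rw [← hz l, v_pow W _ (hw0 l)]
  refine ⟨fun i => by rw [← hz i]; exact pow_ne_zero _ (hw0 i), fun P hP => ?_⟩
  have hP' : MvPolynomial.expand e P ≠ 0 :=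
    (MvPolynomial.expand_ne_zero (by omega)).2 hP
  have hev : MvPolynomial.aeval w (MvPolynomial.expand e P) = MvPolynomial.aeval z P := by
    rw [MvPolynomial.aeval_expand]
    have : w ^ e = z := funext fun l => by rw [Pi.pow_apply, hz l]
    rw [this]
  have hsum : ∀ α : Fin n →₀ ℕ, ∑ i, (((e • α) i : ℕ) : ℝ) * W.v (w i) =
      ∑ i, (α i : ℝ) * W.v (z i) := fun α => by
    refine Finset.sum_congr rfl fun i _ => ?_
    rw [hzv i, Finsupp.smul_apply, smul_eq_mul]
    push_cast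
    ring
  obtain ⟨h1, ⟨β, hβ, h2⟩, h3⟩ := hw _ hP'
  rw [hev] at h1 h2
  have hsupp := MvPolynomial.support_expand (p := e) P he0
  refine ⟨h1, ?_, fun α hα => ?_⟩
  · rw [hsupp, Finset.mem_image] at hβ
    obtain ⟨α, hα, rfl⟩ := hβ
    exact ⟨α, hα, by rw [h2, hsum α]⟩
  · have := h3 (e • α) (by rw [hsupp, Finset.mem_image]; exact ⟨α, hα, rfl⟩)
    rw [hev, hsum α] at this
    exact this

end Pool.Agent.FCH.H55
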